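import Pool.Agent.Lib.MP_144d21_co.PSI.Iface

/-!
# MP_144d21_co, project XU3, part PSI: module DEG
-/

set_option autoImplicit false

namespace Pool.Agent.Xu.H97

open Finset Polynomial

section
variable {F σ : Type} [Field F]

theorem DB.zero (D : ℕ) : DB D (0 : MvPolynomial σ F[X]) := by
  intro m e _
  rw [MvPolynomial.coeff_zero, coeff_zero]

theorem DB.add {D : ℕ} {P Q : MvPolynomial σ F[X]} (hP : DB D P) (hQ : DB D Q) :
    DB D (P + Q) := by
  intro m e h
  rw [MvPolynomial.coeff_add, coeff_add, hP m e h, hQ m e h, add_zero]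

theorem DB.sum {ι : Type} {D : ℕ} (s : Finset ι) (P : ι → MvPolynomial σ F[X])
    (h : ∀ i ∈ s, DB D (P i)) : DB D (∑ i ∈ s, P i) := by
  classical
  induction s using Finset.induction_on with
  | empty =>
    rw [sum_empty]
    exact DB.zero D
  | insert a s ha ih =>
    rw [sum_insert ha]
    exact DB.add (h a (mem_insert_self a s)) (ih fun i hi => h i (mem_insert_of_mem hi))

theorem DB.mono {D D' : ℕ} (hD : D ≤ D') {P : MvPolynomial σ F[X]} (hP : DB D P) : DB D' P :=
  fun m e h => hP m e (by omega)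

theorem DB.mul {D D' : ℕ} {P Q : MvPolynomial σ F[X]} (hP : DB D P) (hQ : DB D' Q) :
    DB (D + D') (P * Q) := by
  classical
  intro m e h
  rw [MvPolynomial.coeff_mul, finsetSum_coeff]
  refine sum_eq_zero fun x hx => ?_
  rw [HasAntidiagonal.mem_antidiagonal] at hx
  rw [coeff_mul]
  refine sum_eq_zero fun y hy => ?_
  rw [HasAntidiagonal.mem_antidiagonal] at hy
  have h1 : m.degree = x.1.degree + x.2.degree := by rw [← hx, map_add]
  rcases lt_or_ge D (x.1.degree + y.1) with h2 | h2
  · rw [hP _ _ h2, zero_mul]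
  · rw [hQ x.2 y.2 (by omega), mul_zero]

theorem DB.C {D : ℕ} (p : F[X]) (h : ∀ e, D < e → p.coeff e = 0) :
    DB D (MvPolynomial.C p : MvPolynomial σ F[X]) := by
  classical
  intro m e hm
  rw [MvPolynomial.coeff_C]
  by_cases h0 : 0 = m
  · subst h0
    rw [if_pos rfl]
    refine h e ?_
    rw [map_zero, zero_add] at hm
    exact hm
  · rw [if_neg h0, coeff_zero]

theorem DB.one : DB 0 (1 : MvPolynomial σ F[X]) := by
  have h := DB.C (F := F) (σ := σ) (D := 0) 1 (fun e he => by
    rw [coeff_one, if_neg (by omega)])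
  rwa [MvPolynomial.C_1] at h

theorem DB.pow {D : ℕ} {P : MvPolynomial σ F[X]} (hP : DB D P) (k : ℕ) : DB (k * D) (P ^ k) := by
  induction k with
  | zero =>
    rw [pow_zero, zero_mul]
    exact DB.one
  | succ k ih =>
    rw [pow_succ, add_mul, one_mul]
    exact DB.mul ih hP

theorem DB.prod {ι : Type} (s : Finset ι) (P : ι → MvPolynomial σ F[X]) (D : ι → ℕ)
    (h : ∀ i ∈ s, DB (D i) (P i)) : DB (∑ i ∈ s, D i) (∏ i ∈ s, P i) := by
  classical
  induction s using Finset.induction_on with
  | empty =>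
    rw [sum_empty, prod_empty]
    exact DB.one
  | insert a s ha ih =>
    rw [sum_insert ha, prod_insert ha]
    exact DB.mul (h a (mem_insert_self a s)) (ih fun i hi => h i (mem_insert_of_mem hi))

theorem DB.X (k : σ) : DB 1 (MvPolynomial.X k : MvPolynomial σ F[X]) := by
  classical
  intro m e hm
  rw [MvPolynomial.coeff_X]
  by_cases h0 : Finsupp.single k 1 = m
  · subst h0
    rw [if_pos rfl, coeff_one, if_neg]
    rw [Finsupp.degree_single] at hm
    omega
  · rw [if_neg h0, coeff_zero]

end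

/-- module DEG -/
theorem deg : DegS := by
  intro F _ σ n D γ B P hγ hP
  have e : sbt γ (B.map C) P = ∑ s ∈ P.support, MvPolynomial.C (P.coeff s) *
      ∏ v ∈ s.support, (MvPolynomial.C (γ v) + ∑ k, MvPolynomial.C ((B.map C) v k) *
        MvPolynomial.X k) ^ s v := by
    unfold sbt
    rw [MvPolynomial.aeval_def, MvPolynomial.eval₂_eq]
    rfl
  rw [e]
  refine DB.sum _ _ fun s hs => ?_
  have hfac : ∀ v, DB 1 (MvPolynomial.C (γ v) + ∑ k, MvPolynomial.C ((B.map C) v k) *
      MvPolynomial.X k : MvPolynomial (Fin n) F[X]) := by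
    intro v
    refine DB.add (DB.C _ fun e he => ?_) (DB.sum _ _ fun k _ => ?_)
    · exact coeff_eq_zero_of_natDegree_lt (lt_of_le_of_lt (hγ v) he)
    · have := DB.mul (DB.C (F := F) (σ := Fin n) (D := 0) ((B.map C) v k) (fun e he => by
        rw [Matrix.map_apply, coeff_C, if_neg (by omega)])) (DB.X (F := F) k)
      rwa [zero_add] at this
  have hprod : DB (∑ v ∈ s.support, s v * 1) (∏ v ∈ s.support, (MvPolynomial.C (γ v) +
      ∑ k, MvPolynomial.C ((B.map C) v k) * MvPolynomial.X k) ^ s v :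
        MvPolynomial (Fin n) F[X]) :=
    DB.prod _ _ _ fun v _ => DB.pow (hfac v) (s v)
  have hdeg : ∑ v ∈ s.support, s v * 1 = s.degree := by
    simp only [mul_one]
    rfl
  rw [hdeg] at hprod
  rcases le_or_gt s.degree D with hd | hd
  · have h2 := DB.mul (DB.C (F := F) (σ := Fin n) (D := D - s.degree) (P.coeff s)
      (fun e he => hP s e (by omega))) hprod
    rwa [Nat.sub_add_cancel hd] at h2
  · have h0 : P.coeff s = 0 := by
      ext e
      rw [coeff_zero]
      exact hP s e (by omega)
    exact absurd h0 (MvPolynomial.mem_support_iff.mp hs)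

end Pool.Agent.Xu.H97
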