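import Pool.Agent.Lib.MP_144d21_co.PSI.Iface

/-!
# MP_144d21_co, project XU3, part PSI: module SUBC
-/

set_option autoImplicit false

namespace Pool.Agent.Xu.H97

open Finset Polynomial

theorem sbt_eq_sum {R σ τ : Type} [CommRing R] [Fintype τ] (γ : σ → R) (B : Matrix σ τ R)
    (P : MvPolynomial σ R) :
    sbt γ B P = ∑ s ∈ P.support, MvPolynomial.C (P.coeff s) *
      ∏ v ∈ s.support, (MvPolynomial.C (γ v) + ∑ k, MvPolynomial.C (B v k) *
        MvPolynomial.X k) ^ s v := by
  unfold sbt
  rw [MvPolynomial.aeval_def, MvPolynomial.eval₂_eq]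
  rfl

theorem sbt_comp {R σ τ υ : Type} [CommRing R] [Fintype τ] [Fintype υ] (γ : σ → R)
    (B : Matrix σ τ R) (δ : τ → R) (M : Matrix τ υ R) (P : MvPolynomial σ R) :
    sbt δ M (sbt γ B P) = sbt (fun v => γ v + ∑ k, B v k * δ k) (B * M) P := by
  have key : (sbt δ M).comp (sbt γ B) = sbt (fun v => γ v + ∑ k, B v k * δ k) (B * M) := by
    refine MvPolynomial.algHom_ext fun v => ?_
    have hC : ∀ r : R, sbt δ M (MvPolynomial.C r) = MvPolynomial.C r := fun r => by
      unfold sbt
      rw [MvPolynomial.aeval_C]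
      rfl
    have hX : ∀ k : τ, sbt δ M (MvPolynomial.X k) =
        MvPolynomial.C (δ k) + ∑ l, MvPolynomial.C (M k l) * MvPolynomial.X l := fun k => by
      unfold sbt
      rw [MvPolynomial.aeval_X]
    have h1 : sbt γ B (MvPolynomial.X v) =
        MvPolynomial.C (γ v) + ∑ k, MvPolynomial.C (B v k) * MvPolynomial.X k := by
      unfold sbt
      rw [MvPolynomial.aeval_X]
    have h2 : sbt (fun v => γ v + ∑ k, B v k * δ k) (B * M) (MvPolynomial.X v) =
        MvPolynomial.C (γ v + ∑ k, B v k * δ k) +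
          ∑ l, MvPolynomial.C ((B * M) v l) * MvPolynomial.X l := by
      unfold sbt
      rw [MvPolynomial.aeval_X]
    rw [AlgHom.comp_apply, h1, h2, map_add, hC, map_sum, map_add, add_assoc]
    congr 1
    have h3 : ∀ k, sbt δ M (MvPolynomial.C (B v k) * MvPolynomial.X k) =
        MvPolynomial.C (B v k * δ k) +
          ∑ l, MvPolynomial.C (B v k * M k l) * MvPolynomial.X l := fun k => by
      rw [map_mul, hC, hX, mul_add, ← MvPolynomial.C_mul, mul_sum]
      congr 1
      exact sum_congr rfl fun l _ => by rw [MvPolynomial.C_mul, mul_assoc]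
    rw [sum_congr rfl fun k _ => h3 k, sum_add_distrib, ← map_sum]
    congr 1
    rw [sum_comm]
    refine sum_congr rfl fun l _ => ?_
    rw [← sum_mul, ← map_sum, Matrix.mul_apply]
  exact DFunLike.congr_fun key P

theorem sbt_one {R τ : Type} [CommRing R] [Fintype τ] [DecidableEq τ] (P : MvPolynomial τ R) :
    sbt 0 (1 : Matrix τ τ R) P = P := by
  have key : sbt (0 : τ → R) (1 : Matrix τ τ R) = AlgHom.id R (MvPolynomial τ R) := by
    refine MvPolynomial.algHom_ext fun v => ?_
    unfold sbt
    rw [MvPolynomial.aeval_X, AlgHom.id_apply, Pi.zero_apply, MvPolynomial.C_0, zero_add,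
      sum_eq_single v]
    · rw [Matrix.one_apply_eq, MvPolynomial.C_1, one_mul]
    · intro k _ hk
      rw [Matrix.one_apply_ne (Ne.symm hk), MvPolynomial.C_0, zero_mul]
    · intro h
      exact absurd (mem_univ v) h
  rw [key, AlgHom.id_apply]

theorem sbt_ord {R σ τ : Type} [CommRing R] [Fintype τ] (j : ℕ) (M : Matrix σ τ R)
    (P : MvPolynomial σ R) (hP : Ord j P) : Ord j (sbt 0 M P) := by
  intro m hm
  rw [sbt_eq_sum, MvPolynomial.coeff_sum]
  refine sum_eq_zero fun s hs => ?_
  rcases lt_or_ge s.degree j with hd | hd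
  · exact absurd (hP s hd) (MvPolynomial.mem_support_iff.mp hs)
  · have hhom : (∏ v ∈ s.support, (MvPolynomial.C ((0 : σ → R) v) +
        ∑ k, MvPolynomial.C (M v k) * MvPolynomial.X k) ^ s v :
          MvPolynomial τ R).IsHomogeneous s.degree := by
      have h1 : ∀ v ∈ s.support, ((MvPolynomial.C ((0 : σ → R) v) +
          ∑ k, MvPolynomial.C (M v k) * MvPolynomial.X k) ^ s v :
            MvPolynomial τ R).IsHomogeneous (s v) := by
        intro v _
        have h2 : (MvPolynomial.C ((0 : σ → R) v) +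
            ∑ k, MvPolynomial.C (M v k) * MvPolynomial.X k :
              MvPolynomial τ R).IsHomogeneous 1 := by
          rw [Pi.zero_apply, MvPolynomial.C_0, zero_add]
          refine MvPolynomial.IsHomogeneous.sum _ _ _ fun k _ => ?_
          have := (MvPolynomial.isHomogeneous_C τ (M v k)).mul
            (MvPolynomial.isHomogeneous_X R k)
          rwa [zero_add] at this
        have h3 := h2.pow (s v)
        rwa [one_mul] at h3
      exact MvPolynomial.IsHomogeneous.prod _ _ _ h1
    rw [MvPolynomial.coeff_C_mul, hhom.coeff_eq_zero, mul_zero]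
    omega

/-- module SUBC -/
theorem subc : SubcS := by
  intro R _ σ τ υ _ _
  refine ⟨fun γ B δ M P => sbt_comp γ B δ M P, fun P => sbt_one P,
    fun j M P hP => sbt_ord j M P hP⟩

end Pool.Agent.Xu.H97
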